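import Pool.Agent.Q140.Tor.Final

/-!
# Metrics near the metric of a torus of revolution without isometric immersion

The torus is `T² = ℝ² / (2πℤ)²`, with coordinates `(s, t)`.
-/

open scoped RealInnerProductSpace ContDiff

namespace Pool.Agent.Results.MP_665542_gt.TorusOfRevolution

/-- Euclidean three-space. -/
abbrev E3 : Type := EuclideanSpace ℝ (Fin 3)

/-- A map of the plane descends to `T² = ℝ² / (2πℤ)²`. -/
def OnTorus {V : Type} (u : ℝ × ℝ → V) : Prop :=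
  ∀ s t : ℝ, u (s + 2 * Real.pi, t) = u (s, t) ∧ u (s, t + 2 * Real.pi) = u (s, t)

/-- A smooth Riemannian metric `E ds² + 2 F ds dt + G dt²` on `T²`. -/
structure TorusMetric where
  /-- coefficient of `ds²` -/
  E : ℝ × ℝ → ℝ
  /-- coefficient of `2 ds dt` -/
  F : ℝ × ℝ → ℝ
  /-- coefficient of `dt²` -/
  G : ℝ × ℝ → ℝ
  smooth_E : ContDiff ℝ ∞ E
  smooth_F : ContDiff ℝ ∞ F
  smooth_G : ContDiff ℝ ∞ G
  onTorus_E : OnTorus E
  onTorus_F : OnTorus F
  onTorus_G : OnTorus G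
  pos : ∀ p, 0 < E p
  det_pos : ∀ p, 0 < E p * G p - F p ^ 2

/-- The inner product `g_p(u, v)`. -/
def TorusMetric.form (g : TorusMetric) (p u v : ℝ × ℝ) : ℝ :=
  g.E p * (u.1 * v.1) + g.F p * (u.1 * v.2 + u.2 * v.1) + g.G p * (u.2 * v.2)

/-- `‖g - g₀‖_{C⁰} ≤ δ`: at every point `p`, for every `g₀`-orthonormal basis `u, v` at `p`, the
components of `h = g - g₀` satisfy `h(u,u)² + 2 h(u,v)² + h(v,v)² ≤ δ²`, that is
`|h|_{g₀}(p) ≤ δ`. -/
def CZeroLe (g g₀ : TorusMetric) (δ : ℝ) : Prop :=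
  ∀ p u v : ℝ × ℝ, g₀.form p u u = 1 → g₀.form p v v = 1 → g₀.form p u v = 0 →
    (g.form p u u - g₀.form p u u) ^ 2 + 2 * (g.form p u v - g₀.form p u v) ^ 2
      + (g.form p v v - g₀.form p v v) ^ 2 ≤ δ ^ 2

/-- `f` pulls back the Euclidean metric to `g`. -/
def IsIsometric (f : ℝ × ℝ → E3) (g : TorusMetric) : Prop :=
  ∀ p u v : ℝ × ℝ, ⟪fderiv ℝ f p u, fderiv ℝ f p v⟫ = g.form p u v

/-- `f` is (the lift of) a smooth embedding `T² → ℝ³`: smooth, an immersion, and injective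
modulo `(2πℤ)²`. -/
def IsSmoothEmbedding (f : ℝ × ℝ → E3) : Prop :=
  ContDiff ℝ ∞ f ∧ OnTorus f ∧ (∀ p, Function.Injective (fderiv ℝ f p)) ∧
    ∀ p q, f p = f q → ∃ m n : ℤ, q = (p.1 + m * (2 * Real.pi), p.2 + n * (2 * Real.pi))

/-- The torus of revolution with radii `R > ρ > 0`. -/
noncomputable def rev (R ρ : ℝ) (p : ℝ × ℝ) : E3 :=
  !₂[(R + ρ * Real.cos p.1) * Real.cos p.2, (R + ρ * Real.cos p.1) * Real.sin p.2,
    ρ * Real.sin p.1]

section proof

open Pool.Agent.Q140.Tor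

variable {R ρ : ℝ}

theorem radius_pos (hρ : 0 < ρ) (hR : ρ < R) {c : ℝ} (hc0 : 0 ≤ c) (hc : c ≤ 1) (s : ℝ) :
    0 < R + c * ρ * Real.cos s := by
  have h1 := Real.neg_one_le_cos s
  have h2 : 0 ≤ c * ρ := by positivity
  nlinarith

/-- The metrics `ρ² ds² + (R + c ρ cos s)² dt²`. -/
noncomputable def met (R ρ c : ℝ) (hρ : 0 < ρ) (hR : ρ < R) (hc0 : 0 ≤ c) (hc : c ≤ 1) :
    TorusMetric where
  E _ := ρ ^ 2
  F _ := 0
  G p := (R + c * ρ * Real.cos p.1) ^ 2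
  smooth_E := contDiff_const
  smooth_F := contDiff_const
  smooth_G := by fun_prop
  onTorus_E := fun _ _ => ⟨rfl, rfl⟩
  onTorus_F := fun _ _ => ⟨rfl, rfl⟩
  onTorus_G := fun s t => ⟨by simp, rfl⟩
  pos := fun _ => by positivity
  det_pos := fun p => by
    have := radius_pos hρ hR hc0 hc p.1
    simp only [ne_eq, OfNat.ofNat_ne_zero, not_false_eq_true, zero_pow, sub_zero]
    positivity

theorem smooth_rev (R ρ : ℝ) : ContDiff ℝ ∞ (rev R ρ) := by
  rw [contDiff_euclidean]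
  intro i
  fin_cases i
  · simp only [rev]; simp; fun_prop
  · simp only [rev]; simp; fun_prop
  · simp only [rev]; simp; fun_prop

theorem fderiv_rev (R ρ : ℝ) (p u : ℝ × ℝ) :
    fderiv ℝ (rev R ρ) p u =
      !₂[-(ρ * Real.sin p.1) * Real.cos p.2 * u.1 - (R + ρ * Real.cos p.1) * Real.sin p.2 * u.2,
        -(ρ * Real.sin p.1) * Real.sin p.2 * u.1 + (R + ρ * Real.cos p.1) * Real.cos p.2 * u.2,
        ρ * Real.cos p.1 * u.1] := by
  have hd : DifferentiableAt ℝ (rev R ρ) p := (smooth_rev R ρ).differentiable (by simp) p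
  have hc : ∀ i, (fderiv ℝ (rev R ρ) p u) i = fderiv ℝ (fun q => rev R ρ q i) p u := by
    intro i
    have h := ((PiLp.proj 2 (𝕜 := ℝ) (fun _ : Fin 3 => ℝ) i).hasFDerivAt
      (x := rev R ρ p)).comp p hd.hasFDerivAt
    have h2 : HasFDerivAt (fun q => rev R ρ q i)
      ((PiLp.proj 2 (𝕜 := ℝ) (fun _ : Fin 3 => ℝ) i).comp (fderiv ℝ (rev R ρ) p)) p := h
    rw [h2.fderiv]
    rfl
  have hcs : HasFDerivAt (fun q : ℝ × ℝ => R + ρ * Real.cos q.1)
      (ρ • (-Real.sin p.1 • ContinuousLinearMap.fst ℝ ℝ ℝ)) p :=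
    ((Real.hasDerivAt_cos p.1).comp_hasFDerivAt p hasFDerivAt_fst).const_mul ρ |>.const_add R
  have hct : HasFDerivAt (fun q : ℝ × ℝ => Real.cos q.2)
      (-Real.sin p.2 • ContinuousLinearMap.snd ℝ ℝ ℝ) p :=
    (Real.hasDerivAt_cos p.2).comp_hasFDerivAt p hasFDerivAt_snd
  have hst : HasFDerivAt (fun q : ℝ × ℝ => Real.sin q.2)
      (Real.cos p.2 • ContinuousLinearMap.snd ℝ ℝ ℝ) p :=
    (Real.hasDerivAt_sin p.2).comp_hasFDerivAt p hasFDerivAt_snd
  have hss : HasFDerivAt (fun q : ℝ × ℝ => ρ * Real.sin q.1)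
      (ρ • (Real.cos p.1 • ContinuousLinearMap.fst ℝ ℝ ℝ)) p :=
    ((Real.hasDerivAt_sin p.1).comp_hasFDerivAt p hasFDerivAt_fst).const_mul ρ
  ext i
  rw [hc i]
  fin_cases i
  · have : (fun q : ℝ × ℝ => rev R ρ q 0) = fun q => (R + ρ * Real.cos q.1) * Real.cos q.2 := by
      funext q; simp [rev]
    change fderiv ℝ (fun q : ℝ × ℝ => rev R ρ q 0) p u = _
    rw [this, (hcs.fun_mul hct).fderiv]
    simp
    ring
  · have : (fun q : ℝ × ℝ => rev R ρ q 1) = fun q => (R + ρ * Real.cos q.1) * Real.sin q.2 := by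
      funext q; simp [rev]
    change fderiv ℝ (fun q : ℝ × ℝ => rev R ρ q 1) p u = _
    rw [this, (hcs.fun_mul hst).fderiv]
    simp
    ring
  · have : (fun q : ℝ × ℝ => rev R ρ q 2) = fun q => ρ * Real.sin q.1 := by
      funext q; simp [rev]
    change fderiv ℝ (fun q : ℝ × ℝ => rev R ρ q 2) p u = _
    rw [this, hss.fderiv]
    simp
    ring

theorem isometric_rev (hρ : 0 < ρ) (hR : ρ < R) :
    IsIsometric (rev R ρ) (met R ρ 1 hρ hR zero_le_one le_rfl) := by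
  intro p u v
  rw [fderiv_rev, fderiv_rev, inner3]
  simp only [TorusMetric.form, met]
  simp
  have h1 := Real.sin_sq_add_cos_sq p.1
  have h2 := Real.sin_sq_add_cos_sq p.2
  generalize Real.sin p.1 = S at *
  generalize Real.cos p.1 = C at *
  generalize Real.sin p.2 = S' at *
  generalize Real.cos p.2 = C' at *
  have hS : S ^ 2 = 1 - C ^ 2 := by linarith
  have hS' : S' ^ 2 = 1 - C' ^ 2 := by linarith
  ring_nf
  simp only [hS, hS']
  ring

theorem form_self_pos (g : TorusMetric) (p u : ℝ × ℝ) (hu : g.form p u u = 0) : u = 0 := by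
  have h1 := g.pos p
  have h2 := g.det_pos p
  have h3 : (g.E p * u.1 + g.F p * u.2) ^ 2 + (g.E p * g.G p - g.F p ^ 2) * u.2 ^ 2 = 0 := by
    have : (g.E p * u.1 + g.F p * u.2) ^ 2 + (g.E p * g.G p - g.F p ^ 2) * u.2 ^ 2 =
      g.E p * g.form p u u := by simp only [TorusMetric.form]; ring
    rw [this, hu, mul_zero]
  have h5 : (g.E p * g.G p - g.F p ^ 2) * u.2 ^ 2 = 0 := by nlinarith [mul_nonneg h2.le (sq_nonneg u.2)]
  have h6 : u.2 = 0 := by
    rcases mul_eq_zero.1 h5 with h | h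
    · exact absurd h h2.ne'
    · exact pow_eq_zero_iff (two_ne_zero) |>.1 h
  have h7 : u.1 = 0 := by
    rw [h6] at h3
    have : (g.E p * u.1) ^ 2 = 0 := by nlinarith
    rcases mul_eq_zero.1 (pow_eq_zero_iff (two_ne_zero) |>.1 this) with h | h
    · exact absurd h h1.ne'
    · exact h
  exact Prod.ext h7 h6

theorem embedding_rev (hρ : 0 < ρ) (hR : ρ < R) : IsSmoothEmbedding (rev R ρ) := by
  refine ⟨smooth_rev R ρ, fun s t => ⟨by simp [rev], by simp [rev]⟩, ?_, ?_⟩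
  · intro p
    rw [injective_iff_map_eq_zero]
    intro u hu
    apply form_self_pos (met R ρ 1 hρ hR zero_le_one le_rfl) p
    rw [← isometric_rev hρ hR, hu, inner_zero_left]
  · intro p q h
    have h0 := congrArg (fun z : E3 => z 0) h
    have h1 := congrArg (fun z : E3 => z 1) h
    have h2 := congrArg (fun z : E3 => z 2) h
    simp [rev] at h0 h1 h2
    have hp := radius_pos hρ hR zero_le_one le_rfl p.1
    have hq := radius_pos hρ hR zero_le_one le_rfl q.1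
    rw [one_mul] at hp hq
    have hs1 : Real.sin p.1 = Real.sin q.1 := by
      rcases h2 with h | h
      · exact h
      · exact absurd h hρ.ne'
    have hsq : (R + ρ * Real.cos p.1) ^ 2 = (R + ρ * Real.cos q.1) ^ 2 := by
      have e1 := Real.sin_sq_add_cos_sq p.2
      have e2 := Real.sin_sq_add_cos_sq q.2
      calc (R + ρ * Real.cos p.1) ^ 2 = ((R + ρ * Real.cos p.1) * Real.cos p.2) ^ 2 +
            ((R + ρ * Real.cos p.1) * Real.sin p.2) ^ 2 := by
              linear_combination (-(R + ρ * Real.cos p.1) ^ 2) * e1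
        _ = ((R + ρ * Real.cos q.1) * Real.cos q.2) ^ 2 +
            ((R + ρ * Real.cos q.1) * Real.sin q.2) ^ 2 := by rw [h0, h1]
        _ = (R + ρ * Real.cos q.1) ^ 2 := by
              linear_combination ((R + ρ * Real.cos q.1) ^ 2) * e2
    have heq : R + ρ * Real.cos p.1 = R + ρ * Real.cos q.1 := by
      nlinarith
    have hc1 : Real.cos p.1 = Real.cos q.1 := by
      have : ρ * Real.cos p.1 = ρ * Real.cos q.1 := by linarith
      exact mul_left_cancel₀ hρ.ne' this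
    have hc2 : Real.cos p.2 = Real.cos q.2 := by
      rw [heq] at h0
      exact mul_left_cancel₀ hq.ne' h0
    have hs2 : Real.sin p.2 = Real.sin q.2 := by
      rw [heq] at h1
      exact mul_left_cancel₀ hq.ne' h1
    obtain ⟨m, hm⟩ := Real.Angle.angle_eq_iff_two_pi_dvd_sub.1
      (Real.Angle.cos_sin_inj hc1.symm hs1.symm)
    obtain ⟨n, hn⟩ := Real.Angle.angle_eq_iff_two_pi_dvd_sub.1
      (Real.Angle.cos_sin_inj hc2.symm hs2.symm)
    refine ⟨m, n, Prod.ext ?_ ?_⟩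
    · simp only; linarith
    · simp only; linarith

theorem close (hρ : 0 < ρ) (hR : ρ < R) {δ : ℝ} (hδ0 : 0 < δ) (hδ1 : δ < 1) :
    CZeroLe (met R ρ (1 - δ) hρ hR (by linarith) (by linarith))
      (met R ρ 1 hρ hR zero_le_one le_rfl) (8 * R * ρ / (R - ρ) ^ 2 * δ) := by
  intro p u v hu hv _
  have hRρ : 0 < R - ρ := by linarith
  have hr := radius_pos hρ hR zero_le_one le_rfl p.1
  have hc1 := Real.neg_one_le_cos p.1
  have hc2 := Real.cos_le_one p.1
  simp only [TorusMetric.form, met] at *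
  rw [one_mul] at hr
  rw [one_mul] at hu hv
  set C := Real.cos p.1 with hC
  have hrR : R - ρ ≤ R + ρ * C := by nlinarith
  have hu2 : (R - ρ) ^ 2 * (u.2 * u.2) ≤ 1 := by
    have h1 : (R - ρ) ^ 2 ≤ (R + ρ * C) ^ 2 := by
      apply pow_le_pow_left₀ hRρ.le hrR
    have h2 : (R - ρ) ^ 2 * (u.2 * u.2) ≤ (R + ρ * C) ^ 2 * (u.2 * u.2) :=
      mul_le_mul_of_nonneg_right h1 (mul_self_nonneg _)
    have h3 : 0 ≤ ρ ^ 2 * (u.1 * u.1) := mul_nonneg (sq_nonneg _) (mul_self_nonneg _)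
    linarith
  have hv2 : (R - ρ) ^ 2 * (v.2 * v.2) ≤ 1 := by
    have h1 : (R - ρ) ^ 2 ≤ (R + ρ * C) ^ 2 := by
      apply pow_le_pow_left₀ hRρ.le hrR
    have h2 : (R - ρ) ^ 2 * (v.2 * v.2) ≤ (R + ρ * C) ^ 2 * (v.2 * v.2) :=
      mul_le_mul_of_nonneg_right h1 (mul_self_nonneg _)
    have h3 : 0 ≤ ρ ^ 2 * (v.1 * v.1) := mul_nonneg (sq_nonneg _) (mul_self_nonneg _)
    linarith
  have key : |((R + (1 - δ) * ρ * C) ^ 2 - (R + ρ * C) ^ 2) * (u.2 * u.2 + v.2 * v.2)| ≤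
      8 * R * ρ / (R - ρ) ^ 2 * δ := by
    rw [abs_mul, abs_of_nonneg (add_nonneg (mul_self_nonneg u.2) (mul_self_nonneg v.2))]
    have h1 : |(R + (1 - δ) * ρ * C) ^ 2 - (R + ρ * C) ^ 2| ≤ 4 * R * ρ * δ := by
      have e : (R + (1 - δ) * ρ * C) ^ 2 - (R + ρ * C) ^ 2 =
        -(δ * ρ * C * (2 * R + (2 - δ) * ρ * C)) := by ring
      rw [e, abs_neg, abs_mul, abs_mul, abs_of_pos (mul_pos hδ0 hρ)]
      have a1 : |C| ≤ 1 := abs_le.2 ⟨hc1, hc2⟩
      have a2 : |2 * R + (2 - δ) * ρ * C| ≤ 4 * R := by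
        have : |(2 - δ) * ρ * C| ≤ 2 * ρ := by
          rw [abs_mul, abs_of_pos (mul_pos (by linarith : (0:ℝ) < 2 - δ) hρ)]
          have : (2 - δ) * ρ * |C| ≤ (2 - δ) * ρ * 1 :=
            mul_le_mul_of_nonneg_left a1 (mul_nonneg (by linarith) hρ.le)
          nlinarith
        have h3 := abs_le.1 this
        rw [abs_le]
        constructor <;> nlinarith [h3.1, h3.2]
      calc δ * ρ * |C| * |2 * R + (2 - δ) * ρ * C|
          ≤ δ * ρ * 1 * (4 * R) := by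
            apply mul_le_mul _ a2 (abs_nonneg _) (by positivity)
            exact mul_le_mul_of_nonneg_left a1 (by positivity)
        _ = 4 * R * ρ * δ := by ring
    have h2 : u.2 * u.2 + v.2 * v.2 ≤ 2 / (R - ρ) ^ 2 := by
      rw [le_div_iff₀ (by positivity)]
      linarith
    calc |(R + (1 - δ) * ρ * C) ^ 2 - (R + ρ * C) ^ 2| * (u.2 * u.2 + v.2 * v.2)
        ≤ 4 * R * ρ * δ * (2 / (R - ρ) ^ 2) := by
          apply mul_le_mul h1 h2 (add_nonneg (mul_self_nonneg u.2) (mul_self_nonneg v.2))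
          have : 0 < R := by linarith
          positivity
      _ = 8 * R * ρ / (R - ρ) ^ 2 * δ := by ring
  calc _ = (((R + (1 - δ) * ρ * C) ^ 2 - (R + ρ * C) ^ 2) * (u.2 * u.2 + v.2 * v.2)) ^ 2 := by
        ring
    _ ≤ _ := by
        rw [← sq_abs]
        exact pow_le_pow_left₀ (abs_nonneg _) key 2

theorem none (hρ : 0 < ρ) (hR : ρ < R) {δ : ℝ} (hδ0 : 0 < δ) (hδ1 : δ < 1) :
    ¬ ∃ f : ℝ × ℝ → E3, ContDiff ℝ 3 f ∧ OnTorus f ∧
      IsIsometric f (met R ρ (1 - δ) hρ hR (by linarith) (by linarith)) := by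
  rintro ⟨f, hf, hper, hiso⟩
  have hd : ∀ p, DifferentiableAt ℝ f p := hf.differentiable (by norm_num)
  have hD : ∀ v p, D v (ρ⁻¹ • f) p = ρ⁻¹ • fderiv ℝ f p v := by
    intro v p
    unfold D
    rw [fderiv_const_smul (hd p)]
    rfl
  have hin : ∀ v w p, ⟪D v (ρ⁻¹ • f) p, D w (ρ⁻¹ • f) p⟫ =
      ρ⁻¹ ^ 2 * (met R ρ (1 - δ) hρ hR (by linarith) (by linarith)).form p v w := by
    intro v w p
    rw [hD, hD, real_inner_smul_left, real_inner_smul_right, hiso]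
    ring
  refine no_immersion (a := R / ρ) (c := 1 - δ) (by linarith) (by linarith) ?_ (ρ⁻¹ • f)
    (contDiff_const.smul hf) ?_ ?_ ?_ ?_
  · rw [lt_div_iff₀ hρ]
    nlinarith
  · refine ⟨fun s t => ?_, fun s t => ?_⟩
    · simp [(hper s t).1]
    · simp [(hper s t).2]
  · intro p
    rw [hin]
    simp [TorusMetric.form, met, e1]
    field_simp
  · intro p
    rw [hin]
    simp [TorusMetric.form, met, e1, e2]
  · intro p
    rw [hin]
    simp [TorusMetric.form, met, e2]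
    field_simp

end proof

/-- For every torus of revolution `f₀` in `ℝ³`, with induced metric `g₀`, and every `ε > 0` there
is a smooth metric `g` on `T²` with `‖g - g₀‖_{C⁰} < ε` such that `(T², g)` has no smooth
isometric embedding into `ℝ³`, and not even an isometric immersion of class `C³`. -/
theorem result (R ρ : ℝ) (hρ : 0 < ρ) (hR : ρ < R) :
    ∃ g₀ : TorusMetric, IsSmoothEmbedding (rev R ρ) ∧ IsIsometric (rev R ρ) g₀ ∧
      ∀ ε : ℝ, 0 < ε → ∃ g : TorusMetric, (∃ δ : ℝ, 0 ≤ δ ∧ δ < ε ∧ CZeroLe g g₀ δ) ∧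
        ¬ ∃ f : ℝ × ℝ → E3, ContDiff ℝ 3 f ∧ OnTorus f ∧ IsIsometric f g := by
  refine ⟨met R ρ 1 hρ hR zero_le_one le_rfl, embedding_rev hρ hR, isometric_rev hρ hR, ?_⟩
  intro ε hε
  have hRρ : 0 < R - ρ := by linarith
  have hRpos : 0 < R := by linarith
  have hK : 0 < 8 * R * ρ / (R - ρ) ^ 2 := by positivity
  obtain ⟨δ, hδ0, hδ⟩ : ∃ δ, 0 < δ ∧ δ < min 1 (ε / (8 * R * ρ / (R - ρ) ^ 2)) :=
    exists_between (by positivity)
  have hδ1 : δ < 1 := hδ.trans_le (min_le_left _ _)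
  have hδ2 : δ < ε / (8 * R * ρ / (R - ρ) ^ 2) := hδ.trans_le (min_le_right _ _)
  refine ⟨_, ⟨8 * R * ρ / (R - ρ) ^ 2 * δ, by positivity, ?_, close hρ hR hδ0 hδ1⟩,
    none hρ hR hδ0 hδ1⟩
  rw [lt_div_iff₀ hK] at hδ2
  linarith

end Pool.Agent.Results.MP_665542_gt.TorusOfRevolution
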